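import Pool.Agent.TH882.WM5
import Pool.Agent.TH882.WM7

/-!
Small random perturbations of the k-th powers, k not a power of two greater than two: 2 k + 1
summands suffice, as Hardy and Littlewood expect for the k-th powers themselves.
-/

set_option autoImplicit false

namespace Pool.Agent.Results.MP_efcac8_nt.SmallPerturbations

open MeasureTheory Filter

/-- The uniform probability measure on {0, 1, …, ⌊n^θ⌋}. -/
noncomputable def noise (θ : ℝ) (n : ℕ) : Measure ℕ :=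
  (PMF.uniformOfFinset (Finset.range (⌊(n : ℝ) ^ θ⌋₊ + 1)) (by simp)).toMeasure

/-- N is a sum of exactly s perturbed k-th powers n^k + m u_n with n ≥ 1. -/
def IsSum (k m s : ℕ) (u : ℕ → ℕ) (N : ℕ) : Prop :=
  ∃ f : Fin s → ℕ, (∀ l, 1 ≤ f l) ∧ N = ∑ l, (f l ^ k + m * u (f l))

lemma exp_num : Real.exp (-(11 / 6 : ℝ)) < 4 / 25 := by
  have h1 : (25 / 4 : ℝ) < Real.exp (11 / 6) := by
    have h2 : (25 / 4 : ℝ) ^ 6 < Real.exp (11 / 6) ^ 6 := by
      rw [← Real.exp_nat_mul]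
      have h3 : ((6 : ℕ) : ℝ) * (11 / 6) = ((11 : ℕ) : ℝ) * 1 := by norm_num
      rw [h3, Real.exp_nat_mul]
      calc (25 / 4 : ℝ) ^ 6 < 2.7182818283 ^ 11 := by norm_num
        _ ≤ Real.exp 1 ^ 11 := pow_le_pow_left₀ (by norm_num) Real.exp_one_gt_d9.le 11
    exact lt_of_pow_lt_pow_left₀ 6 (Real.exp_pos _).le h2
  rw [Real.exp_neg, inv_lt_comm₀ (Real.exp_pos _) (by norm_num)]
  norm_num
  linarith

/-- Let k ≥ 2 not be one of 4, 8, 16, …, let m ≥ 1 be arbitrary, and 0.16 k ≤ θ ≤ k - 1. Let u_n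
be independent and uniform in {0, …, ⌊n^θ⌋}. Almost surely, for all s ≥ 2 k + 1, every large
integer is a sum of exactly s numbers n^k + m u_n. -/
theorem result (k m : ℕ) (θ : ℝ) (hk : 2 ≤ k) (hpow : ∀ a, 2 ≤ a → k ≠ 2 ^ a) (hm : 1 ≤ m)
    (h1 : 0.16 * (k : ℝ) ≤ θ) (h2 : θ ≤ (k : ℝ) - 1) :
    ∀ᵐ u ∂(Measure.infinitePi (noise θ)), ∀ s, 2 * k + 1 ≤ s →
      ∀ᶠ N in atTop, IsSum k m s u N := by
  have hkr : (2 : ℝ) ≤ k := by exact_mod_cast hk
  have hk0 : (0 : ℝ) < k := by linarith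
  set j : ℕ := ⌈(11 / 6 : ℝ) * k⌉₊ with hj
  have hj1 : (11 / 6 : ℝ) * k ≤ j := Nat.le_ceil _
  have hj2 : (j : ℝ) < (11 / 6 : ℝ) * k + 1 := Nat.ceil_lt_add_one (by positivity)
  have h3 : (1 - 1 / (k : ℝ)) ^ j < 4 / 25 := by
    refine lt_of_le_of_lt (Pool.Agent.TH882.WM.exp_bound hk j) (lt_of_le_of_lt ?_ exp_num)
    apply Real.exp_le_exp.2
    have : (11 / 6 : ℝ) ≤ (j : ℝ) / k := by
      rw [le_div_iff₀ hk0]
      exact hj1
    linarith
  have h4 : (k : ℝ) * (1 - 1 / (k : ℝ)) ^ j < k * (4 / 25) := mul_lt_mul_of_pos_left h3 hk0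
  have h5 : (k : ℝ) * (1 - 1 / (k : ℝ)) ^ j < θ := by
    refine lt_of_lt_of_le h4 ?_
    norm_num at h1 ⊢
    linarith
  have h6 : (k : ℝ) * (1 - 1 / (k : ℝ)) ^ j < ((2 * k + 1 : ℕ) : ℝ) - j := by
    push_cast
    linarith
  have h7 := Pool.Agent.TH882.WM.main_range (s₀ := 2 * k + 1) hk hm h2 h5 h6
  filter_upwards [h7] with u hu s hs
  filter_upwards [hu s hs] with N hN
  exact hN.2 (Pool.Agent.TH882.WM.loc_two (by omega) hm hpow hs N)

end Pool.Agent.Results.MP_efcac8_nt.SmallPerturbations
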